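import Pool.Agent.H14R3.KK.Defs
import Pool.Agent.H14R3.KK.S.LMAXB

/-! Task INTEG of project KK (MP_d47e08_pr). -/

set_option autoImplicit false
open MeasureTheory ProbabilityTheory Filter Topology

namespace KK14

namespace INTEGx

instance (n r : ℕ) : IsProbabilityMeasure (gau n r) := by
  unfold gau; infer_instance

/-- the entries are continuous -/
theorem cont_entry (n r l : ℕ) (lam : ℝ) (I J : Sub n l) :
    Continuous (fun Z : Sub n r → ℝ => kik n r l lam Z I J) := by
  unfold kik
  by_cases h : (symmDiff I.1 J.1).card = r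
  · simp only [h, dite_true]
    exact continuous_const.add (continuous_apply _)
  · simp only [h, dite_false]
    exact continuous_const

/-- the entries have moments of all orders -/
theorem memLp_entry (n r l : ℕ) (lam : ℝ) (I J : Sub n l) (p : NNReal) :
    MemLp (fun Z : Sub n r → ℝ => kik n r l lam Z I J) p (gau n r) := by
  unfold kik
  by_cases h : (symmDiff I.1 J.1).card = r
  · simp only [h, dite_true]
    refine (memLp_const lam).add ?_
    exact (memLp_id_gaussianReal (μ := 0) (v := 1) p).comp_measurePreserving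
      (measurePreserving_eval (fun _ : Sub n r => gaussianReal 0 1) ⟨symmDiff I.1 J.1, h⟩)
  · simp only [h, dite_false]
    exact memLp_const 0

/-- Lipschitz, two-sided -/
theorem lip {ι : Type*} [Fintype ι] (A B : Matrix ι ι ℝ) :
    |lmax A - lmax B| ≤ ∑ i, ∑ j, |A i j - B i j| := by
  have h1 := LMAXL A B
  have h2 := LMAXL B A
  have h3 : ∑ i, ∑ j, |B i j - A i j| = ∑ i, ∑ j, |A i j - B i j| :=
    Finset.sum_congr rfl fun i _ => Finset.sum_congr rfl fun j _ => abs_sub_comm _ _
  rw [abs_le]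
  constructor <;> linarith

theorem cont (n r l : ℕ) (lam : ℝ) :
    Continuous (fun Z : Sub n r → ℝ => lmax (kik n r l lam Z)) := by
  rw [continuous_iff_continuousAt]
  intro Z0
  rw [ContinuousAt, tendsto_iff_dist_tendsto_zero]
  have hc : Continuous (fun Z : Sub n r → ℝ => ∑ I, ∑ J,
      |kik n r l lam Z I J - kik n r l lam Z0 I J|) :=
    continuous_finsetSum _ fun I _ => continuous_finsetSum _ fun J _ =>
      ((cont_entry n r l lam I J).sub continuous_const).abs
  have h0 := hc.tendsto Z0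
  simp only [sub_self, abs_zero, Finset.sum_const_zero] at h0
  refine squeeze_zero (fun _ => dist_nonneg) (fun Z => ?_) h0
  rw [Real.dist_eq]
  exact lip _ _

theorem s1 (n r l : ℕ) (lam : ℝ) (I J : Sub n l) (p : NNReal) :
    MemLp (fun Z : Sub n r → ℝ => |kik n r l lam Z I J|) p (gau n r) :=
  (memLp_entry n r l lam I J p).abs

theorem s2 (n r l : ℕ) (lam : ℝ) (I : Sub n l) (p : NNReal) :
    MemLp (fun Z : Sub n r → ℝ => ∑ J, |kik n r l lam Z I J|) p (gau n r) :=
  memLp_finsetSum (s := Finset.univ)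
    (f := fun (J : Sub n l) (Z : Sub n r → ℝ) => |kik n r l lam Z I J|)
    fun J _ => s1 n r l lam I J p

theorem s3 (n r l : ℕ) (lam : ℝ) (p : NNReal) :
    MemLp (fun Z : Sub n r → ℝ => ∑ I, ∑ J, |kik n r l lam Z I J|) p (gau n r) :=
  memLp_finsetSum (s := Finset.univ)
    (f := fun (I : Sub n l) (Z : Sub n r → ℝ) => ∑ J, |kik n r l lam Z I J|)
    fun I _ => s2 n r l lam I p

theorem s4 (n r l : ℕ) (lam : ℝ) (p : NNReal) :
    MemLp (fun Z : Sub n r → ℝ => |lmax (0 : Matrix (Sub n l) (Sub n l) ℝ)| +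
      ∑ I, ∑ J, |kik n r l lam Z I J|) p (gau n r) := by
  have := (memLp_const (p := p) (μ := gau n r)
    |lmax (0 : Matrix (Sub n l) (Sub n l) ℝ)|).add (s3 n r l lam p)
  exact this

/-- the bound -/
theorem bound {ι : Type*} [Fintype ι] (A : Matrix ι ι ℝ) :
    ‖lmax A‖ ≤ ‖|lmax (0 : Matrix ι ι ℝ)| + ∑ I, ∑ J, |A I J|‖ := by
  have h1 := lip A 0
  simp only [Matrix.zero_apply, sub_zero] at h1
  have h2 : 0 ≤ ∑ I, ∑ J, |A I J| :=
    Finset.sum_nonneg fun I _ => Finset.sum_nonneg fun J _ => abs_nonneg _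
  have h3 := abs_nonneg (lmax (0 : Matrix ι ι ℝ))
  rw [Real.norm_eq_abs, Real.norm_eq_abs, abs_of_nonneg (add_nonneg h3 h2)]
  have h4 := abs_sub_abs_le_abs_sub (lmax A) (lmax (0 : Matrix ι ι ℝ))
  linarith

theorem memLp_lmax (n r l : ℕ) (lam : ℝ) (p : NNReal) :
    MemLp (fun Z : Sub n r → ℝ => lmax (kik n r l lam Z)) p (gau n r) :=
  (s4 n r l lam p).mono (cont n r l lam).aestronglyMeasurable
    (Eventually.of_forall fun Z => bound (kik n r l lam Z))

end INTEGx

open INTEGx in
theorem INTEG (n r l : ℕ) (lam : ℝ) :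
    Continuous (fun Z : Sub n r → ℝ => lmax (kik n r l lam Z)) ∧
    Integrable (fun Z => lmax (kik n r l lam Z)) (gau n r) ∧
    ∀ p : ℕ, Integrable (fun Z => |lmax (kik n r l lam Z)| ^ p) (gau n r) := by
  refine ⟨cont n r l lam, ?_, fun p => ?_⟩
  · have h := memLp_lmax n r l lam 1
    rw [ENNReal.coe_one, memLp_one_iff_integrable] at h
    exact h
  · have h := memLp_lmax n r l lam p
    have h' := h.integrable_norm_rpow'
    simpa using h'

end KK14
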